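import Pool.Agent.Helper45.PQ.StB

/-! Module CSB of project PQ. -/

set_option autoImplicit false

open Module Classical
open scoped LinearAlgebra.Projectivization

namespace Pool.Agent.Helper7.PQ

open Pool.Agent.Helper45.PQ
open Pool.Agent.Helper53.PB (tt line)

universe u v

private theorem two_ne {F : Type u} [Field F] [Finite F] {h : ℕ} (hq : Nat.card F = 3 ^ h) :
    (2 : F) ≠ 0 := by
  have : Fintype F := Fintype.ofFinite F
  intro h2
  have h3 : ((Fintype.card F : ℕ) : F) = 0 := FiniteField.cast_card_eq_zero F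
  rw [← Nat.card_eq_fintype_card, hq] at h3
  push_cast at h3
  have h4 : (3 : F) = 0 := by
    by_contra h5
    exact (pow_ne_zero h h5) h3
  have h5 : (1 : F) = 3 - 2 := by norm_num
  rw [h2, h4, sub_zero] at h5
  exact one_ne_zero h5

private theorem arith {q a b z mr ms j : ℕ} (hq : 3 ≤ q) (hj : j + 2 ≤ q) (hm : mr + ms ≤ j)
    (ha : a ≤ (1 + mr) * q ^ 3 + 1 + j) (hb : b ≤ (1 + ms) * q ^ 3 + 1 + j)
    (hz : 2 * z + 3 ≤ q) : a + b + 2 * z * q ^ 4 < q ^ 5 := by
  have h1 : (2 + mr + ms) * q ^ 3 ≤ q * q ^ 3 := Nat.mul_le_mul_right _ (by omega)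
  have h2 : (2 * z + 3) * q ^ 4 ≤ q * q ^ 4 := Nat.mul_le_mul_right _ hz
  have h3 : q * 1 ≤ q * q ^ 3 := Nat.mul_le_mul_left _ (Nat.one_le_pow _ _ (by omega))
  have e1 : q * q ^ 3 = q ^ 4 := by ring
  have e2 : q * q ^ 4 = q ^ 5 := by ring
  have e3 : (2 + mr + ms) * q ^ 3 = (1 + mr) * q ^ 3 + (1 + ms) * q ^ 3 := by ring
  have e4 : (2 * z + 3) * q ^ 4 = 2 * z * q ^ 4 + 3 * q ^ 4 := by ring
  rw [e1] at h1 h3
  rw [e2, e4] at h2
  rw [e3] at h1
  have h5 : a + b < 3 * q ^ 4 := by omega
  omega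

theorem hCSB (h1 : StXZ.{u, v}) (h2 : StKSP.{u, v}) (h3 : StOVD.{u, v}) (h4 : StPIK.{u, v}) :
    StCSB.{u, v} := by
  intro F _ _ V _ _ _ _ Q T H m h j c hH R hR S hS hRS
  have : Fintype F := Fintype.ofFinite F
  have hq3 : 3 ≤ Nat.card F := by
    rw [c.hq]
    calc 3 = 3 ^ 1 := by norm_num
      _ ≤ 3 ^ h := Nat.pow_le_pow_right (by norm_num) c.h1
  have hQR := c.sH R hR
  have hQS := c.sH S hS
  have hRR : QuadraticMap.polar Q R.rep R.rep = 0 := by rw [polar_self_two, hQR, mul_zero]
  have hSS : QuadraticMap.polar Q S.rep S.rep = 0 := by rw [polar_self_two, hQS, mul_zero]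
  have hne : R ≠ S := by
    rintro rfl
    exact hRS hRR
  have hSR : QuadraticMap.polar Q S.rep R.rep ≠ 0 := by rwa [QuadraticMap.polar_comm]
  have hmm : m R + m S ≤ j := by
    have hS' : S ∈ H.erase R := Finset.mem_erase.2 ⟨hne.symm, hS⟩
    have e1 := Finset.add_sum_erase H m hR
    have e2 := Finset.add_sum_erase (H.erase R) m hS'
    have e3 := c.ms
    omega
  have hmR := c.mp R hR
  have hmS := c.mp S hS
  -- the vector `x`
  obtain ⟨x, hx0, hQx, hRx, hSx, hZ, hA, hB⟩ := h1 F V Q R S ((H.erase R).erase S)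
    (T.filter (fun P => QuadraticMap.polar Q R.rep P.rep = 0))
    (T.filter (fun P => QuadraticMap.polar Q S.rep P.rep = 0)) c.qd hQR hQS hRS
    (fun z hz => by
      rw [Finset.mem_erase, Finset.mem_erase] at hz
      exact ⟨c.sH z hz.2.2, hz.2.1, hz.1⟩)
    (fun hh => c.dis R hR (Finset.mem_filter.1 hh).1)
    (fun hh => c.dis S hS (Finset.mem_filter.1 hh).1)
    (by
      have hc : ((H.erase R).erase S).card + 2 = H.card := by
        have hS' : S ∈ H.erase R := Finset.mem_erase.2 ⟨hne.symm, hS⟩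
        have e1 := Finset.card_erase_add_one hS'
        have e2 := Finset.card_erase_add_one hR
        omega
      exact arith hq3 c.hj hmm (c.up R hR) (c.up S hS) (by omega))
  have hxx : QuadraticMap.polar Q x x = 0 := by rw [polar_self_two, hQx, mul_zero]
  have hxR : QuadraticMap.polar Q x R.rep = 0 := by rwa [QuadraticMap.polar_comm]
  have hxS : QuadraticMap.polar Q x S.rep = 0 := by rwa [QuadraticMap.polar_comm]
  obtain ⟨l, hl⟩ : ∃ l, l = QuadraticMap.polar Q R.rep S.rep := ⟨_, rfl⟩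
  have hl0 : l ≠ 0 := by rw [hl]; exact hRS
  -- the section
  obtain ⟨K, hK1, hK2, hK3⟩ := h2 F V Q R.rep (l⁻¹ • S.rep) x c.qd hQR
    (by rw [QuadraticMap.map_smul, hQS, smul_zero])
    (by rw [QuadraticMap.polar_smul_right, ← hl, smul_eq_mul, inv_mul_cancel₀ hl0])
    hx0 hQx hRx (by rw [QuadraticMap.polar_smul_left, hSx, smul_zero])
  have hKR : ∀ y ∈ K, QuadraticMap.polar Q R.rep y = 0 := fun y hy => (hK1 y hy).1
  have hKx : ∀ y ∈ K, QuadraticMap.polar Q x y = 0 := fun y hy => (hK1 y hy).2.2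
  have hKS : ∀ y ∈ K, QuadraticMap.polar Q S.rep y = 0 := by
    intro y hy
    have e := (hK1 y hy).2.1
    rw [QuadraticMap.polar_smul_left, smul_eq_mul] at e
    exact (mul_eq_zero.1 e).resolve_left (inv_ne_zero hl0)
  -- seen from `R`
  obtain ⟨O, γ, C, hO, hC⟩ := h3 F V Q T H m h j c R hR x hx0 hQx hRx
    (by
      intro Z hZH hZR hRZ hxZ
      have hZS : Z ≠ S := by
        rintro rfl
        exact hRS hRZ
      refine hZ Z ?_ (by rwa [QuadraticMap.polar_comm])
      rw [Finset.mem_erase, Finset.mem_erase]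
      exact ⟨hZS, hZR, hZH⟩)
    (by
      intro P hP a b hab
      refine hA P ?_ a b hab
      rw [Finset.mem_filter]
      refine ⟨hP, ?_⟩
      rw [hab, QuadraticMap.polar_add_right, QuadraticMap.polar_smul_right,
        QuadraticMap.polar_smul_right, hRR, hRx, smul_zero, smul_zero, add_zero])
    K (fun y hy => ⟨hKR y hy, hKx y hy⟩)
    (by
      intro y hy a b hab
      have e := hK2 y hy a 0 b (by rw [zero_smul, add_zero]; exact hab)
      exact ⟨e.1, e.2.1, e.2.2.2⟩)
    hK3
  -- seen from `S`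
  obtain ⟨O', γ', C', hO', hC'⟩ := h3 F V Q T H m h j c S hS x hx0 hQx hSx
    (by
      intro Z hZH hZS hSZ hxZ
      have hZR : Z ≠ R := by
        rintro rfl
        exact hSR hSZ
      refine hZ Z ?_ (by rwa [QuadraticMap.polar_comm])
      rw [Finset.mem_erase, Finset.mem_erase]
      exact ⟨hZS, hZR, hZH⟩)
    (by
      intro P hP a b hab
      refine hB P ?_ a b hab
      rw [Finset.mem_filter]
      refine ⟨hP, ?_⟩
      rw [hab, QuadraticMap.polar_add_right, QuadraticMap.polar_smul_right,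
        QuadraticMap.polar_smul_right, hSS, hSx, smul_zero, smul_zero, add_zero])
    K (fun y hy => ⟨hKS y hy, hKx y hy⟩)
    (by
      intro y hy a b hab
      have e := hK2 y hy 0 (a * l) b (by
        rw [zero_smul, add_zero, smul_smul, mul_assoc, mul_inv_cancel₀ hl0, mul_one]; exact hab)
      exact ⟨e.1, (mul_eq_zero.1 e.2.2.1).resolve_right hl0, e.2.2.2⟩)
    hK3
  -- the sets of coefficients
  have hE : ∀ z : ℙ F K, ∃ E : Finset F, z ∈ O' →
      E ⊆ ((C' z).erase 0).image (fun b => b * l) ∧ E.card = m S := by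
    intro z
    by_cases hz : z ∈ O'
    · have e1 : m S ≤ (((C' z).erase 0).image (fun b => b * l)).card := by
        rw [Finset.card_image_of_injective _ (mul_left_injective₀ hl0)]
        have e2 := (hC' z hz).1
        have e3 : (C' z).card - 1 ≤ ((C' z).erase 0).card := Finset.pred_card_le_card_erase
        omega
      obtain ⟨E, hE1, hE2⟩ := Finset.exists_subset_card_eq e1
      exact ⟨E, fun _ => ⟨hE1, hE2⟩⟩
    · exact ⟨∅, fun hh => absurd hh hz⟩
  choose E hE using hE
  refine h4 F (two_ne c.hq) K (Q.comp K.subtype) O O' (fun y => (C y).erase 0) E (m R) (m S) hK3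
    hO hO' hmR hmS (by have := c.hj; omega) ?_ ?_ ?_
  · intro y hy
    refine ⟨Finset.notMem_erase _ _, ?_⟩
    have e2 := (hC y hy).1
    have e3 : (C y).card - 1 ≤ ((C y).erase 0).card := Finset.pred_card_le_card_erase
    omega
  · intro z hz
    refine ⟨?_, (hE z hz).2⟩
    intro h0
    obtain ⟨b, hb, hb0⟩ := Finset.mem_image.1 ((hE z hz).1 h0)
    rcases mul_eq_zero.1 hb0 with e | e
    · exact (Finset.mem_erase.1 hb).1 e
    · exact hl0 e
  · intro y hy z hz a ha b hb hab
    obtain ⟨b', hb', rfl⟩ := Finset.mem_image.1 ((hE z hz).1 hb)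
    obtain ⟨hb0, hbC⟩ := Finset.mem_erase.1 hb'
    obtain ⟨ha0, haC⟩ := Finset.mem_erase.1 ha
    obtain ⟨P, hP, d, hd, hPe⟩ := (hC y hy).2 a haC
    obtain ⟨P', hP', d', hd', hPe'⟩ := (hC' z hz).2 b' hbC
    have hyK : (y.rep : V) ∈ K := y.rep.2
    have hzK : (z.rep : V) ∈ K := z.rep.2
    have hab' : a * (b' * l) + QuadraticMap.polar Q (y.rep : V) (z.rep : V) = 0 := hab
    have pc : ∀ s t : V, QuadraticMap.polar Q s t = QuadraticMap.polar Q t s :=
      fun s t => QuadraticMap.polar_comm Q s t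
    have hyx : QuadraticMap.polar Q (y.rep : V) x = 0 := by rw [pc]; exact hKx _ hyK
    have hyS : QuadraticMap.polar Q (y.rep : V) S.rep = 0 := by rw [pc]; exact hKS _ hyK
    -- values at `P`
    have vP : ∀ t : V, QuadraticMap.polar Q P.rep t = d * (QuadraticMap.polar Q (y.rep : V) t +
        γ y * QuadraticMap.polar Q x t + a * QuadraticMap.polar Q R.rep t) := by
      intro t
      rw [hPe, QuadraticMap.polar_smul_left, QuadraticMap.polar_add_left,
        QuadraticMap.polar_add_left, QuadraticMap.polar_smul_left, QuadraticMap.polar_smul_left]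
      simp only [smul_eq_mul]
    have vP' : ∀ t : V, QuadraticMap.polar Q P'.rep t = d' * (QuadraticMap.polar Q (z.rep : V) t +
        γ' z * QuadraticMap.polar Q x t + b' * QuadraticMap.polar Q S.rep t) := by
      intro t
      rw [hPe', QuadraticMap.polar_smul_left, QuadraticMap.polar_add_left,
        QuadraticMap.polar_add_left, QuadraticMap.polar_smul_left, QuadraticMap.polar_smul_left]
      simp only [smul_eq_mul]
    have pPx : QuadraticMap.polar Q P.rep x = 0 := by
      rw [vP, hyx, hxx, hRx]; ring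
    have pPS : QuadraticMap.polar Q P.rep S.rep = d * (a * l) := by
      rw [vP, hyS, hxS, ← hl]; ring
    have pP'x : QuadraticMap.polar Q P'.rep x = 0 := by
      rw [vP', pc _ x, hKx _ hzK, hxx, hSx]; ring
    have pP'R : QuadraticMap.polar Q P'.rep R.rep = d' * (b' * l) := by
      rw [vP', pc _ R.rep, hKR _ hzK, hxR, pc S.rep R.rep, ← hl]; ring
    have pP'S : QuadraticMap.polar Q P'.rep S.rep = 0 := by
      rw [vP', pc _ S.rep, hKS _ hzK, hxS, hSS]; ring
    have pP'y : QuadraticMap.polar Q P'.rep (y.rep : V) =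
        d' * QuadraticMap.polar Q (y.rep : V) (z.rep : V) := by
      rw [vP', pc (z.rep : V), hKx _ hyK, hKS _ hyK]; ring
    have pPP' : QuadraticMap.polar Q P.rep P'.rep = 0 := by
      rw [vP, pc _ P'.rep, pc x P'.rep, pc R.rep P'.rep, pP'y, pP'x, pP'R]
      have e : d * (d' * QuadraticMap.polar Q (y.rep : V) (z.rep : V) + γ y * 0 +
          a * (d' * (b' * l))) = d * d' * (a * (b' * l) +
            QuadraticMap.polar Q (y.rep : V) (z.rep : V)) := by ring
      rw [e, hab', mul_zero]
    have nPS : QuadraticMap.polar Q P.rep S.rep ≠ 0 := by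
      rw [pPS]; exact mul_ne_zero hd (mul_ne_zero ha0 hl0)
    have nP'R : QuadraticMap.polar Q P'.rep R.rep ≠ 0 := by
      rw [pP'R]; exact mul_ne_zero hd' (mul_ne_zero hb0 hl0)
    have hPP' : P' ≠ P := by
      intro e
      rw [e] at pP'S
      exact nPS pP'S
    have hline := c.ln P hP P' hPP' (c.sT P' hP') pPP'
    have htt : 2 ≤ tt T (line P P') := by
      have e1 : ({P', P} : Finset (ℙ F V)) ⊆ T.filter (fun X => X.rep ∈ line P P') := by
        intro X hX
        rw [Finset.mem_insert, Finset.mem_singleton] at hX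
        rw [Finset.mem_filter]
        rcases hX with rfl | rfl
        · exact ⟨hP', Pool.Agent.Helper53.PB.right_mem_line _ _⟩
        · exact ⟨hP, Pool.Agent.Helper53.PB.left_mem_line _ _⟩
      have e2 := Finset.card_le_card e1
      rw [Finset.card_pair hPP'] at e2
      exact e2
    have hmass : mass H m (line P P') ≠ 0 := by omega
    obtain ⟨Z', hZ'⟩ : ∃ Z', Z' ∈ H.filter (fun X => X.rep ∈ line P P') := by
      by_contra hcon
      push Not at hcon
      apply hmass
      unfold mass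
      rw [Finset.eq_empty_of_forall_notMem hcon, Finset.sum_empty]
    obtain ⟨hZH, hZl⟩ := Finset.mem_filter.1 hZ'
    obtain ⟨α, β, hαβ⟩ := Pool.Agent.Helper53.PB.mem_line.1 hZl
    have vZ : ∀ t : V, QuadraticMap.polar Q Z'.rep t =
        α * QuadraticMap.polar Q P.rep t + β * QuadraticMap.polar Q P'.rep t := by
      intro t
      rw [← hαβ, QuadraticMap.polar_add_left, QuadraticMap.polar_smul_left,
        QuadraticMap.polar_smul_left]
      simp only [smul_eq_mul]
    have hP'P' : QuadraticMap.polar Q P'.rep P'.rep = 0 := by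
      rw [polar_self_two, c.sT P' hP', mul_zero]
    have hPP : QuadraticMap.polar Q P.rep P.rep = 0 := by
      rw [polar_self_two, c.sT P hP, mul_zero]
    have hZx : QuadraticMap.polar Q Z'.rep x = 0 := by
      rw [vZ, pPx, pP'x]; ring
    by_cases hZR : Z' = R
    · apply nP'R
      rw [pc, ← hZR, vZ, pPP', hP'P']; ring
    by_cases hZS : Z' = S
    · apply nPS
      rw [pc, ← hZS, vZ, pc P'.rep P.rep, pPP', hPP]; ring
    refine hZ Z' ?_ hZx
    rw [Finset.mem_erase, Finset.mem_erase]
    exact ⟨hZS, hZR, hZH⟩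

end Pool.Agent.Helper7.PQ
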